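import Pool.Agent.H30.AW.Targets

/-!
# MP_70ba79_ag: orbifold version, projective version (rows `..3` of the board `aw_modules`)

The curves of `aw_modules` are regular outside `S` and lie in a cover `x_i ^ μ_i = a_i (y)`. Here
the curves are arbitrary (projective); they meet the hyperplane `a_i` outside `S` with multiplicity
at least `m` at every common point.
-/

set_option autoImplicit false

namespace Pool.Agent.H30.AX

open MvPolynomial SC Pool.Agent.H27.LV Pool.Agent.H30.AV Pool.Agent.H30.AW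

section

variable {k K : Type} [Field k] [Field K] [Algebra k K] {n q : ℕ}

/-- order of contact with the hyperplane `a` at the place `v` -/
noncomputable def lam (v : DV k K) (y : Fin n → K) (a : Fin (n + 1) → k) : ℤ :=
  v.ord (ell a (xx y)) + poleOrder v y

open Classical in
/-- `ordD - 2 E` outside `S`, `ordD - 1 - 2 E` in `S` (`E` the pole order) -/
noncomputable def kp (D : Derivation k K K) (S : Finset (DV k K)) (y : Fin n → K) (v : DV k K) :
    ℤ := ordD v D - 2 * (poleOrder v y : ℤ) - if v ∈ S then 1 else 0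

/-- the curve meets the hyperplane `a` outside `S` with multiplicities at least `m` -/
def Orb (m : ℕ) (S : Finset (DV k K)) (y : Fin n → K) (a : Fin (n + 1) → k) : Prop :=
  ell a (xx y) ≠ 0 ∧ ∀ v, v ∉ S → lam v y a = 0 ∨ (m : ℤ) ≤ lam v y a

/-- value of a polynomial of degree at most `e` -/
noncomputable def pv {e : ℕ} (a : Pol n e → k) (y : Fin n → K) : K :=
  ∑ M : Pol n e, algebraMap k K (a M) * ∏ j, y j ^ M.1 j

/-- value of a form of degree `e` -/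
noncomputable def fv {e : ℕ} (a : Mon (n + 1) e → k) (z : Fin (n + 1) → K) : K :=
  ∑ M : Mon (n + 1) e, algebraMap k K (a M) * ∏ j, z j ^ M.1 j

end

/-- For general `a` (in the complement of a hypersurface `Δ = 0`) the degree of the curves on the
variety with equations `Q` which meet the hyperplanes `a_i` outside `S` with multiplicities at
least `m` and have the property `V` is bounded linearly. -/
def Bd3 (k : Type) [Field k] (n q m : ℕ) (Q : Set (MvPolynomial (Fin n) k))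
    (V : ∀ (K : Type) [Field K] [Algebra k K], (Fin n → K) → Derivation k K K → Prop) : Prop :=
  ∃ (Δ : MvPolynomial (Fin q × Fin (n + 1)) k) (B : ℕ), Δ ≠ 0 ∧ 1 ≤ B ∧
    ∀ a : Fin q → Fin (n + 1) → k, eval (fun p => a p.1 p.2) Δ ≠ 0 →
    ∀ (K : Type) [Field K] [Algebra k K] [Algebra.EssFiniteType k K], Algebra.trdeg k K = 1 →
    ∀ (S : Finset (DV k K)) (y : Fin n → K) (D : Derivation k K K), D ≠ 0 →
    (∀ g ∈ Q, aeval y g = 0) → (∃ j, y j ∉ Set.range (algebraMap k K)) →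
    (∀ i, Orb m S y (a i)) → V K y D → (deg k y : ℤ) ≤ B * (canDeg D + S.card)

/-- LO3: local estimates -/
def T_LO3 : Prop := ∀ (k K : Type) [Field k] [IsAlgClosed k] [CharZero k] [Field K] [Algebra k K]
  [Algebra.EssFiniteType k K], Algebra.trdeg k K = 1 → ∀ (n m : ℕ) (a b : Fin (n + 1) → k)
  (S : Finset (DV k K)) (y : Fin n → K) (D : Derivation k K K), D ≠ 0 → 2 ≤ m → Orb m S y a →
  ∀ v : DV k K, 0 ≤ lam v y a ∧ (∀ p, ge v (kp D S y v) (lift2 y D p)) ∧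
  (bil (evk K b) (lift2 y D) (evk K a) = 0 ∨
    m * kp D S y v + (m - 1) * lam v y a ≤ m * v.ord (bil (evk K b) (lift2 y D) (evk K a)))

/-- CU3: the inequality for one curve -/
def T_CU3 : Prop := ∀ (k K : Type) [Field k] [IsAlgClosed k] [CharZero k] [Field K] [Algebra k K]
  [Algebra.EssFiniteType k K], Algebra.trdeg k K = 1 → ∀ (m n q r β N w : ℕ)
  (c e : Finset (Fin q) → ℕ) (a : Fin q → Fin (n + 1) → k)
  (b : Fin q → Fin 2 → Fin (n + 1) → k) (S : Finset (DV k K))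
  (y : Fin n → K) (D : Derivation k K K) (G : MvPolynomial (Zw n) k)
  (g : Finset (Fin q) → MvPolynomial (Zw n) k)
  (h : Finset (Fin q) → (Fin q → Fin (w + 1)) → MvPolynomial (Zw n) k), 2 ≤ m → D ≠ 0 →
  (∃ j, y j ∉ Set.range (algebraMap k K)) → (∀ i, Orb m S y (a i)) →
  (∀ (v : DV k K) (I : Finset (Fin q)), (∀ i ∈ I, 0 < lam v y (a i)) → I.card ≤ r) →
  (∀ (v : DV k K) (p₀ : Zw n) (γ₀ : Zw n → k), lift2 y D p₀ ≠ 0 →
    (∀ p, ge v 1 (lift2 y D p / lift2 y D p₀ - algebraMap k K (γ₀ p))) →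
    ∀ I : Finset (Fin q), (∀ i ∈ I, ∀ c, bil (b i c) γ₀ (a i) = 0) → 2 * I.card ≤ β + 1) →
  w * r ≤ N → G.IsHomogeneous N → (∀ I, (g I).IsHomogeneous (c I)) →
  (∀ I J, (h I J).IsHomogeneous (e I)) →
  (∀ I : Finset (Fin q), 2 * I.card ≤ β + 1 → e I + w * I.card = N + c I ∧
    aeval (lift2 y D) (g I * G) = ∑ J : Fin q → Fin (w + 1),
      (∏ i ∈ I, bil (evk K (b i 0)) (lift2 y D) (evk K (a i)) ^ (J i : ℕ) *
        bil (evk K (b i 1)) (lift2 y D) (evk K (a i)) ^ (w - (J i : ℕ))) *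
        aeval (lift2 y D) (h I J)) →
  aeval (lift2 y D) (G * ∏ I, g I) ≠ 0 →
  (((m : ℤ) - 1) * q * w - 2 * m * (N + ∑ I, (c I : ℤ))) * deg k y ≤
    m * (N + ∑ I, (c I : ℤ)) * (canDeg D + S.card)

/-- BZ3: curves with only one tangent line -/
def T_BZ3 : Prop := ∀ (k : Type) [Field k] [IsAlgClosed k] [CharZero k] (m n r q : ℕ)
  (Q : Set (MvPolynomial (Fin n) k)), 2 ≤ m → 1 ≤ r → DimLE Q r → 2 * r * m < (m - 1) * q →
  ∀ P : Ideal (MvPolynomial (Zw n) k), P.IsPrime → IsHom P →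
  Algebra.trdeg k (MvPolynomial (Zw n) k ⧸ P) ≤ (1 : Cardinal) →
  Bd3 k n q m Q fun K _ _ y D => ∀ g ∈ P, aeval (lift2 y D) g = 0

/-- BO3: union of two conditions -/
def T_BO3 : Prop := ∀ (k : Type) [Field k] (n q m : ℕ) (Q : Set (MvPolynomial (Fin n) k))
  (V V' V'' : ∀ (K : Type) [Field K] [Algebra k K], (Fin n → K) → Derivation k K K → Prop),
  Bd3 k n q m Q V → Bd3 k n q m Q V' →
  (∀ (K : Type) [Field K] [Algebra k K] (y : Fin n → K) (D : Derivation k K K),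
    (∀ g ∈ Q, aeval y g = 0) → V'' K y D → V K y D ∨ V' K y D) → Bd3 k n q m Q V''

/-- PR3: the main step, for a prime ideal -/
def T_PR3 : Prop := ∀ (k : Type) [Field k] [IsAlgClosed k] [CharZero k] (m n r q : ℕ)
  (Q : Set (MvPolynomial (Fin n) k)), 2 ≤ m → 1 ≤ r → DimLE Q r →
  2 * m ^ 2 * ((2 * r - 1) * (2 * r - 2) + 1) ≤ (m - 1) ^ 2 * (q - 2 * r) →
  ∀ P : Ideal (MvPolynomial (Zw n) k), P.IsPrime → IsHom P → Alt P →
  Algebra.trdeg k (MvPolynomial (Zw n) k ⧸ P) ≤ (2 * r : ℕ) →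
  (∀ A : Ideal (MvPolynomial (Zw n) k), P < A → IsHom A →
    Bd3 k n q m Q fun K _ _ y D => ∀ g ∈ A, aeval (lift2 y D) g = 0) →
  Bd3 k n q m Q fun K _ _ y D => ∀ g ∈ P, aeval (lift2 y D) g = 0

/-- IN3: induction over the homogeneous ideals which contain `P` -/
def T_IN3 : Prop := ∀ (k : Type) [Field k] [IsAlgClosed k] [CharZero k] (m n r q : ℕ)
  (Q : Set (MvPolynomial (Fin n) k)), 2 ≤ m → 1 ≤ r → DimLE Q r →
  2 * m ^ 2 * ((2 * r - 1) * (2 * r - 2) + 1) ≤ (m - 1) ^ 2 * (q - 2 * r) →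
  ∀ P : Ideal (MvPolynomial (Zw n) k), P.IsPrime → IsHom P → Alt P →
  Algebra.trdeg k (MvPolynomial (Zw n) k ⧸ P) ≤ (2 * r : ℕ) →
  Bd3 k n q m Q fun K _ _ y D => ∀ g ∈ P, aeval (lift2 y D) g = 0

/-- IZ3: induction over the closed subsets of the variety; the theorem for linear polynomials -/
def T_IZ3 : Prop := ∀ (k : Type) [Field k] [IsAlgClosed k] [CharZero k] (m n r q : ℕ)
  (Q : Set (MvPolynomial (Fin n) k)), 2 ≤ m → 1 ≤ r → DimLE Q r →
  2 * m ^ 2 * ((2 * r - 1) * (2 * r - 2) + 1) ≤ (m - 1) ^ 2 * (q - 2 * r) →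
  Bd3 k n q m Q fun _ _ _ _ _ => True

/-- VE3: the theorem for polynomials of degree `e` -/
def T_VE3 : Prop := ∀ (k : Type) [Field k] [IsAlgClosed k] [CharZero k] (m n r e q : ℕ)
  (Q : Set (MvPolynomial (Fin n) k)), 2 ≤ m → 1 ≤ r → 1 ≤ e → DimLE Q r →
  2 * m ^ 2 * ((2 * r - 1) * (2 * r - 2) + 1) ≤ (m - 1) ^ 2 * (q - 2 * r) →
  ∃ (Δ : MvPolynomial (Fin q × Pol n e) k) (B : ℕ), Δ ≠ 0 ∧ 1 ≤ B ∧
    ∀ a : Fin q → Pol n e → k, eval (fun p => a p.1 p.2) Δ ≠ 0 →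
    ∀ (K : Type) [Field K] [Algebra k K] [Algebra.EssFiniteType k K], Algebra.trdeg k K = 1 →
    ∀ (S : Finset (DV k K)) (y : Fin n → K) (D : Derivation k K K), D ≠ 0 →
    (∀ g ∈ Q, aeval y g = 0) → (∃ j, y j ∉ Set.range (algebraMap k K)) →
    (∀ i, pv (a i) y ≠ 0) → (∀ v, v ∉ S → ∀ i, v.ord (pv (a i) y) + e * poleOrder v y = 0 ∨
      (m : ℤ) ≤ v.ord (pv (a i) y) + e * poleOrder v y) →
    (deg k y : ℤ) ≤ B * (canDeg D + S.card)

/-- AF3: the affine covers -/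
def T_AF3 : Prop := ∀ (k : Type) [Field k] [IsAlgClosed k] [CharZero k] (m n r e q : ℕ)
  (Q : Set (MvPolynomial (Fin n) k)), 2 ≤ m → 1 ≤ r → 1 ≤ e → DimLE Q r →
  2 * m ^ 2 * ((2 * r - 1) * (2 * r - 2) + 1) ≤ (m - 1) ^ 2 * (q - 2 * r) →
  ∃ (Δ : MvPolynomial (Fin q × Pol n e) k) (B : ℕ), Δ ≠ 0 ∧
    ∀ a : Fin q → Pol n e → k, eval (fun p => a p.1 p.2) Δ ≠ 0 →
    ∀ μ : Fin q → ℕ, (∀ i, m ≤ μ i) →
      DegreeBound k (polyEqs Q a μ) (∏ i, X (Sum.inr i)) (fun χ => B * χ)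

/-- PJ3: the projective version: `Q` are forms, the curve `z` is normalised, one coordinate is 1 -/
def T_PJ3 : Prop := ∀ (k : Type) [Field k] [IsAlgClosed k] [CharZero k] (m n r e q : ℕ)
  (Q : Set (MvPolynomial (Fin (n + 1)) k)), 2 ≤ m → 1 ≤ r → 1 ≤ e →
  (∀ g ∈ Q, ∃ d, g.IsHomogeneous d) → DimLE Q (r + 1) →
  2 * m ^ 2 * ((2 * r - 1) * (2 * r - 2) + 1) ≤ (m - 1) ^ 2 * (q - 2 * r) →
  ∃ (Δ : MvPolynomial (Fin q × Mon (n + 1) e) k) (B : ℕ), Δ ≠ 0 ∧ 1 ≤ B ∧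
    ∀ a : Fin q → Mon (n + 1) e → k, eval (fun p => a p.1 p.2) Δ ≠ 0 →
    ∀ (K : Type) [Field K] [Algebra k K] [Algebra.EssFiniteType k K], Algebra.trdeg k K = 1 →
    ∀ (S : Finset (DV k K)) (z : Fin (n + 1) → K) (D : Derivation k K K), D ≠ 0 →
    (∃ j, z j = 1) → (∀ g ∈ Q, aeval z g = 0) → (∃ j, z j ∉ Set.range (algebraMap k K)) →
    (∀ i, fv (a i) z ≠ 0) → (∀ v, v ∉ S → ∀ i, v.ord (fv (a i) z) + e * poleOrder v z = 0 ∨
      (m : ℤ) ≤ v.ord (fv (a i) z) + e * poleOrder v z) →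
    (deg k z : ℤ) ≤ B * (canDeg D + S.card)

/-- Equations of the projective variety `X`, a cover of the projective variety with equations `Q`:
`x_i ^ e = a_i (z)`, the `a_i` are forms of degree `e`. -/
noncomputable def projEqs {k : Type} [Field k] {n q e : ℕ} (Q : Set (MvPolynomial (Fin (n + 1)) k))
    (a : Fin q → Mon (n + 1) e → k) : Set (MvPolynomial (Fin (n + 1) ⊕ Fin q) k) :=
  {p | (∃ g ∈ Q, p = rename Sum.inl g) ∨ ∃ i, p = X (Sum.inr i) ^ e -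
    ∑ M : Mon (n + 1) e, C (a i M) * ∏ j, X (Sum.inl j) ^ M.1 j}

/-- Q1 for the projective variety with homogeneous coordinates `σ` and equations `P`, `D = 0`, with
the exceptional set `h = 0`: a curve is given by its function field `K`, a morphism to `X` by the
functions `z`, homogeneous coordinates, normalised such that one of them is 1. -/
def ProjDegreeBound (k : Type) [Field k] {σ : Type} [Fintype σ] (P : Set (MvPolynomial σ k))
    (h : MvPolynomial σ k) (β : ℤ → ℤ) : Prop :=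
  ∀ (K : Type) [Field K] [Algebra k K] [Algebra.EssFiniteType k K], Algebra.trdeg k K = 1 →
  ∀ (z : σ → K), (∃ j, z j = 1) → (∀ p ∈ P, aeval z p = 0) →
  (∃ j, z j ∉ Set.range (algebraMap k K)) → aeval z h ≠ 0 →
  ∀ D : Derivation k K K, D ≠ 0 → (deg k z : ℤ) ≤ β (canDeg D)

/-- CH3: change of the chart -/
def T_CH3 : Prop := ∀ (k K : Type) [Field k] [IsAlgClosed k] [CharZero k] [Field K] [Algebra k K]
  [Algebra.EssFiniteType k K], Algebra.trdeg k K = 1 → ∀ (σ : Type) [Fintype σ] (z : σ → K),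
  (∃ j, z j = 1) → ∀ j₀, z j₀ ≠ 0 → deg k (fun j => z j / z j₀) = deg k z

/-- PV3: the projective covers -/
def T_PV3 : Prop := ∀ (k : Type) [Field k] [IsAlgClosed k] [CharZero k] (n r e q : ℕ)
  (Q : Set (MvPolynomial (Fin (n + 1)) k)), 1 ≤ r → 2 ≤ e →
  (∀ g ∈ Q, ∃ d, g.IsHomogeneous d) → DimLE Q (r + 1) →
  2 * e ^ 2 * ((2 * r - 1) * (2 * r - 2) + 1) ≤ (e - 1) ^ 2 * (q - 2 * r) →
  ∃ (Δ : MvPolynomial (Fin q × Mon (n + 1) e) k) (B : ℕ), Δ ≠ 0 ∧
    ∀ a : Fin q → Mon (n + 1) e → k, eval (fun p => a p.1 p.2) Δ ≠ 0 →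
      ProjDegreeBound k (projEqs Q a) (∏ i, X (Sum.inr i)) (fun χ => B * χ)

end Pool.Agent.H30.AX
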