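import Pool.Agent.H30.AV.All
import Pool.Agent.H33.AW.NN2
import Pool.Agent.H56.AW.MUL
import Pool.Agent.H91.AW.NU2
import Pool.Agent.H69.AW.PE2
import Pool.Agent.H34.AW.SG2
import Pool.Agent.H34.AW.LRB
import Pool.Agent.H51.AW.TR2
import Pool.Agent.H68.AW.PX2
import Pool.Agent.H68.AW.GE2
import Pool.Agent.H68.AW.GP2
import Pool.Agent.H6.AW.TA2
import Pool.Agent.H30.AX.PR3
import Pool.Agent.H49.AX.LO3
import Pool.Agent.H86.AX.CU3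
import Pool.Agent.H18.AX.BZ3
import Pool.Agent.H18.AX.BO3
import Pool.Agent.H64.AX.IN3
import Pool.Agent.H6.AX.IZ3
import Pool.Agent.H49.AX.VE3
import Pool.Agent.H33.AX.PJ3
import Pool.Agent.H54.AW.DC3
import Pool.Agent.H30.AX.FI4

/-!
# MP_70ba79_ag: assembly of the board `aw_modules`
-/

set_option autoImplicit false

namespace Pool.Agent.H30.AX

open MvPolynomial SC Pool.Agent.H27.LV Pool.Agent.H30.AV Pool.Agent.H30.AW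

theorem tNN2 : T_NN2 := Pool.Agent.H33.AW.pf_NN2 tTRQ tHMP Pool.Agent.H69.AV.pf_AVD

theorem tMUL : T_MUL := Pool.Agent.H56.AW.pf_MUL tNN2 tFNT tALI tLAT

theorem tPE2 : T_PE2 := Pool.Agent.H69.AW.PE2.pf_PE2 tCOD tMUL Pool.Agent.H91.AW.pf_NU2

theorem tSG2 : T_SG2 := Pool.Agent.H34.AW.pf_SG2 tTRQ

theorem tTR2 : T_TR2 := Pool.Agent.H51.AW.pf_TR2 tSG2 Pool.Agent.H34.AW.pf_LRB

theorem tPX2 : T_PX2 := Pool.Agent.H68.AW.PX2.pf_PX2 tPE2 tBCH tTR2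

theorem tGE2 : T_GE2 := Pool.Agent.H68.AW.GE2.pf_GE2 Pool.Agent.H99.AV.pf_BLK
  Pool.Agent.H19.VGH.pf_ELI

theorem tGP2 : T_GP2 := Pool.Agent.H68.AW.GP2.pf_GP2 Pool.Agent.H19.VGH.pf_ELI tSG2
  Pool.Agent.H34.AW.pf_LRB

theorem tLO3 : T_LO3 := Pool.Agent.H49.AX.LO3.pf_LO3 dor

theorem tCU3 : T_CU3 := Pool.Agent.H86.AX.pf_CU3 tLO3 rat pfm tDFI pfi

theorem tBZ3 : T_BZ3 := Pool.Agent.H18.AX.pf_BZ3 tLO3 tGPV pfm tDFI pfi ker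

theorem tPR3 : T_PR3 := pf_PR3 tPX2 tGE2 tGP2 tGPV tCU3 tBZ3

theorem tIN3 : T_IN3 := Pool.Agent.H64.AX.pf_IN3 tPR3 Pool.Agent.H18.AX.pf_BO3

theorem tIZ3 : T_IZ3 := Pool.Agent.H6.AX.IZ3.pf_IZ3 Pool.Agent.H6.AW.TA2.pf_TA2 tIN3
  Pool.Agent.H18.AX.pf_BO3

theorem tVE3 : T_VE3 := Pool.Agent.H49.AX.VE3.pf_VE3 tIZ3

theorem tPJ3 : T_PJ3 := Pool.Agent.H33.AX.pf_PJ3 tVE3

theorem tDC3 : T_DC3 := Pool.Agent.H54.AW.pf_DC3 pfm tDFI pfi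

theorem tFI4 : T_FI4 := pf_FI4 tPJ3 tDC3

end Pool.Agent.H30.AX
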