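import Pool.Agent.H30.AX.FI3

/-!
# MP_70ba79_ag: multiplicities of zeros, general morphisms

`φ` are polynomials on the affine variety with the ideal `P`, `I` is their ideal. The ideal of the
pullback of a form `a` of degree `e` is the ideal `J` with `(a (φ)) = I ^ e J`.
-/

set_option autoImplicit false

namespace Pool.Agent.H30.AX

open MvPolynomial SC Pool.Agent.H27.LV Pool.Agent.H30.AV Pool.Agent.H30.AW

/-- Modulo the prime ideal `P` of an affine variety `X` the ideal generated by `A` is `I ^ e * J`,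
`I` the ideal of the coordinates `φ`, and `J` is contained in the `m`-th power of its radical. (For
a morphism `φ` from `X` to projective space and a form `a` of degree `e`, `A = a (φ)`, `J` is the
ideal of the pullback of the divisor `a = 0`.) -/
def PullDiv {k σ : Type} [Field k] {n : ℕ} (m e : ℕ) (P : Ideal (MvPolynomial σ k))
    (φ : Fin (n + 1) → MvPolynomial σ k) (A : MvPolynomial σ k) : Prop :=
  ∃ J : Ideal (MvPolynomial σ k), P ≤ J ∧
    Ideal.span {A} ⊔ P = Ideal.span (Set.range φ) ^ e * J ⊔ P ∧ J ≤ J.radical ^ m ⊔ P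

section

variable {k K : Type} [Field k] [Field K] [Algebra k K] {σ : Type}

/-- functions whose value at the curve has order at least `t` at the place `v` -/
def ordIdeal (v : DV k K) (z : σ → K) (hz : ∀ s, 0 ≤ v.ord (z s)) (t : ℤ) :
    Ideal (MvPolynomial σ k) where
  carrier := {g | ge v t (aeval z g)}
  zero_mem' := by
    left
    exact map_zero _
  add_mem' := by
    intro a b ha hb
    simp only [Set.mem_ofPred_eq, map_add] at *
    exact ha.add hb
  smul_mem' := by
    intro c a ha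
    simp only [Set.mem_ofPred_eq, smul_eq_mul, map_mul] at *
    exact ((reg_aeval v z hz c).mul ha).mono (by simp)

variable (v : DV k K) (z : σ → K) (hz : ∀ s, 0 ≤ v.ord (z s))

lemma mem_ordIdeal (t : ℤ) (g : MvPolynomial σ k) :
    g ∈ ordIdeal v z hz t ↔ ge v t (aeval z g) := Iff.rfl

lemma ordIdeal_mul (s t : ℤ) :
    ordIdeal v z hz s * ordIdeal v z hz t ≤ ordIdeal v z hz (s + t) := by
  rw [Ideal.mul_le]
  intro a ha b hb
  rw [mem_ordIdeal] at *
  rw [map_mul]
  exact ha.mul hb

lemma ordIdeal_pow (s : ℤ) (m : ℕ) : ordIdeal v z hz s ^ m ≤ ordIdeal v z hz (m * s) := by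
  induction m with
  | zero =>
    intro g _
    rw [mem_ordIdeal]
    simpa using reg_aeval v z hz g
  | succ m ih =>
    rw [pow_succ]
    refine (Ideal.mul_mono_left ih).trans ((ordIdeal_mul v z hz _ _).trans ?_)
    have : (m : ℤ) * s + s = ((m + 1 : ℕ) : ℤ) * s := by push_cast; ring
    rw [this]

lemma le_ordIdeal {P : Ideal (MvPolynomial σ k)} (hP : ∀ p ∈ P, aeval z p = 0) (t : ℤ) :
    P ≤ ordIdeal v z hz t := fun p hp => Or.inl (hP p hp)

lemma radical_le_ordIdeal {J : Ideal (MvPolynomial σ k)} (hJ : J ≤ ordIdeal v z hz 1) :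
    J.radical ≤ ordIdeal v z hz 1 := by
  intro u hu
  obtain ⟨N, hN⟩ := hu
  have h1 := hJ hN
  rw [mem_ordIdeal, map_pow] at h1
  rw [mem_ordIdeal]
  by_cases h0 : aeval z u = 0
  · exact Or.inl h0
  right
  have h2 := h1.resolve_left (pow_ne_zero _ h0)
  rw [v.ord_pow] at h2
  by_contra hcon
  push Not at hcon
  have h3 : (N : ℤ) * v.ord (aeval z u) ≤ 0 :=
    mul_nonpos_of_nonneg_of_nonpos (by positivity) (by omega)
  omega

end

/-- orders of the pullback at a place where the curve is regular: `t` is the order of the ideal of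
the `φ_j` -/
theorem pull_ord {k K : Type} [Field k] [Field K] [Algebra k K] (v : DV k K) {σ : Type} {n : ℕ}
    (m e : ℕ) (P : Ideal (MvPolynomial σ k)) (φ : Fin (n + 1) → MvPolynomial σ k)
    (A : MvPolynomial σ k) (z : σ → K) (hA : PullDiv m e P φ A) (hz : ∀ s, 0 ≤ v.ord (z s))
    (hP : ∀ p ∈ P, aeval z p = 0) (hA0 : aeval z A ≠ 0) (t : ℤ)
    (ht : ∀ j, ge v t (aeval z (φ j))) (j₁ : Fin (n + 1)) (hj₁ : aeval z (φ j₁) ≠ 0)
    (ht₁ : v.ord (aeval z (φ j₁)) = t) :
    v.ord (aeval z A) - e * t = 0 ∨ (m : ℤ) ≤ v.ord (aeval z A) - e * t := by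
  obtain ⟨J, hPJ, hAJ, hJm⟩ := hA
  -- `I ^ e` has order at least `e t`
  have hI : Ideal.span (Set.range φ) ≤ ordIdeal v z hz t := by
    rw [Ideal.span_le]
    rintro _ ⟨j, rfl⟩
    exact ht j
  have hIe : Ideal.span (Set.range φ) ^ e ≤ ordIdeal v z hz (e * t) :=
    (Ideal.pow_right_mono hI e).trans (ordIdeal_pow v z hz t e)
  have hAmem : A ∈ Ideal.span (Set.range φ) ^ e * J ⊔ P := by
    rw [← hAJ]
    exact Ideal.mem_sup_left (Ideal.mem_span_singleton_self A)
  -- lower bound from a bound for `J`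
  have hlow : ∀ s : ℤ, J ≤ ordIdeal v z hz s → e * t + s ≤ v.ord (aeval z A) := by
    intro s hs
    have h1 : Ideal.span (Set.range φ) ^ e * J ⊔ P ≤ ordIdeal v z hz (e * t + s) :=
      sup_le ((Ideal.mul_mono hIe hs).trans (ordIdeal_mul v z hz _ _))
        (le_ordIdeal v z hz hP _)
    exact (h1 hAmem).resolve_left hA0
  -- upper bound
  have hup : ∀ g ∈ J, aeval z g ≠ 0 → v.ord (aeval z A) ≤ e * t + v.ord (aeval z g) := by
    intro g hg hg0
    have h1 : φ j₁ ^ e * g ∈ Ideal.span {A} ⊔ P := by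
      rw [hAJ]
      exact Ideal.mem_sup_left (Ideal.mul_mem_mul
        (Ideal.pow_mem_pow (Ideal.subset_span (Set.mem_range_self j₁)) e) hg)
    obtain ⟨x, hx, p, hp, hxp⟩ := Submodule.mem_sup.1 h1
    obtain ⟨u, rfl⟩ := Ideal.mem_span_singleton'.1 hx
    have h2 := congrArg (aeval z) hxp
    rw [map_add, hP p hp, add_zero, map_mul, map_mul, map_pow] at h2
    have h3 : aeval z (φ j₁) ^ e * aeval z g ≠ 0 := mul_ne_zero (pow_ne_zero _ hj₁) hg0
    have hu0 : aeval z u ≠ 0 := by
      intro h0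
      rw [h0, zero_mul] at h2
      exact h3 h2.symm
    have h4 := (reg_aeval v z hz u).resolve_left hu0
    have h5 : v.ord (aeval z u) + v.ord (aeval z A) = e * t + v.ord (aeval z g) := by
      rw [← v.ord_mul' hu0 hA0, h2, v.ord_mul' (pow_ne_zero _ hj₁) hg0, v.ord_pow, ht₁]
    omega
  by_cases h1 : J ≤ ordIdeal v z hz 1
  · -- then all elements of `J` have order at least `m`
    right
    have h2 := radical_le_ordIdeal v z hz h1
    have h3 : J ≤ ordIdeal v z hz m := by
      refine hJm.trans (sup_le ?_ (le_ordIdeal v z hz hP _))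
      refine (Ideal.pow_right_mono h2 m).trans ((ordIdeal_pow v z hz 1 m).trans ?_)
      rw [mul_one]
    have := hlow m h3
    omega
  · left
    rw [SetLike.not_le_iff_exists] at h1
    obtain ⟨g, hg, hg1⟩ := h1
    rw [mem_ordIdeal, ge, not_or, not_le] at hg1
    have h2 := hup g hg hg1.1
    have h3 := hlow 0 (fun x _ => reg_aeval v z hz x)
    omega

end Pool.Agent.H30.AX
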