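import Pool.Agent.H30.AX.Targets2
import Pool.Agent.H64.AV.GPV

/-!
# Row FI3: the final form
-/

set_option autoImplicit false

namespace Pool.Agent.H30.AX

open MvPolynomial SC Pool.Agent.H27.LV Pool.Agent.H30.AV Pool.Agent.H30.AW

section

variable {k K : Type} [Field k] [Field K] [Algebra k K] {n : ℕ}

lemma fv_eq {e : ℕ} (a : Mon (n + 1) e → k) (z : Fin (n + 1) → K) :
    fv a z = aeval z (frm a) := by
  unfold fv frm
  rw [map_sum]
  refine Finset.sum_congr rfl fun M _ => ?_
  rw [map_mul, aeval_C]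
  congr 1
  unfold mono
  rw [aeval_monomial, map_one, one_mul, Finsupp.prod_fintype _ _ fun _ => pow_zero _]
  rfl

/-- values of the composite -/
lemma aeval_comp {σ : Type} (φ : Fin (n + 1) → MvPolynomial σ k) (z : σ → K)
    (g : MvPolynomial (Fin (n + 1)) k) :
    aeval z (aeval φ g) = aeval (fun j => aeval z (φ j)) g := by
  have h : ((aeval z : MvPolynomial σ k →ₐ[k] K).comp (aeval φ)) =
      aeval (fun j => aeval z (φ j)) := by
    ext j
    simp
  exact congrArg (fun f => f g) (congrArg DFunLike.coe h)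

/-- regular functions at a place -/
lemma reg_aeval (v : DV k K) {σ : Type} (z : σ → K) (hz : ∀ s, 0 ≤ v.ord (z s))
    (g : MvPolynomial σ k) : ge v 0 (aeval z g) := by
  induction g using MvPolynomial.induction_on with
  | C c => rw [aeval_C]; exact ge_const v c
  | add f g hf hg => rw [map_add]; exact hf.add hg
  | mul_X f i hf =>
    rw [map_mul, aeval_X]
    have h : ge v 0 (z i) := Or.inr (hz i)
    exact (hf.mul h).mono (by simp)

end

theorem pf_FI3 (hPJ3 : T_PJ3) (hRP3 : T_RP3) (hDC3 : T_DC3) : T_FI3 := by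
  intro k _ _ _ m n r e q Q hm hr he hQ hdim hq
  obtain ⟨Δ, B, hΔ, hB1, hB⟩ := hPJ3 k m n r e q Q hm hr he hQ hdim hq
  refine ⟨Δ, hΔ, ?_⟩
  intro a ha σ _ P φ hP hunit hQφ hgen hdiv
  classical
  -- some coordinate of the morphism is not zero
  obtain ⟨j0, hj0⟩ : ∃ j0, φ j0 ∉ P := by
    by_contra hcon
    push Not at hcon
    apply hP.ne_top
    rw [← hunit]
    refine le_antisymm le_sup_right (sup_le (Ideal.span_le.2 ?_) le_rfl)
    rintro _ ⟨j, rfl⟩
    exact hcon j
  choose D d c hd hc hlead hrel using hgen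
  refine ⟨φ j0 * (∏ i, aeval φ (frm (a i))) * ∏ s, aeval φ (c s (d s)), (∑ s, D s) * B, ?_, ?_⟩
  · refine hP.mul_notMem (hP.mul_notMem hj0 ?_) ?_
    · rw [Ideal.IsPrime.prod_mem_iff]
      push Not
      exact fun i _ => (hdiv i).1
    · rw [Ideal.IsPrime.prod_mem_iff]
      push Not
      exact fun s _ => hlead s
  intro K _ _ _ htr S z hPz hreg hnc hh D0 hD0
  rw [map_mul, map_mul, map_prod, map_prod, mul_ne_zero_iff, mul_ne_zero_iff,
    Finset.prod_ne_zero_iff, Finset.prod_ne_zero_iff] at hh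
  obtain ⟨⟨hZ0, hA⟩, hL⟩ := hh
  obtain ⟨Z, hZ⟩ : ∃ Z : Fin (n + 1) → K, Z = fun j => aeval z (φ j) := ⟨_, rfl⟩
  have hZ0' : Z j0 ≠ 0 := by rw [hZ]; exact hZ0
  obtain ⟨z', hz'⟩ : ∃ z' : Fin (n + 1) → K, z' = fun j => (Z j0)⁻¹ * Z j := ⟨_, rfl⟩
  have hcomp : ∀ g, aeval z (aeval φ g) = aeval Z g := fun g => by
    rw [aeval_comp, hZ]
  have hform : ∀ (g : MvPolynomial (Fin (n + 1)) k) (N : ℕ), g.IsHomogeneous N →
      aeval z' g = ((Z j0)⁻¹) ^ N * aeval Z g := fun g N hg => by
    rw [hz']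
    exact H64.AV.aeval_hom Z (Z j0)⁻¹ g hg
  have hone : z' j0 = 1 := by
    rw [hz']
    exact inv_mul_cancel₀ hZ0'
  have hinv : ∀ N : ℕ, ((Z j0)⁻¹) ^ N ≠ 0 := fun N => pow_ne_zero _ (inv_ne_zero hZ0')
  -- the relations
  have hL' : ∀ s, aeval z' (c s (d s)) ≠ 0 := by
    intro s
    rw [hform _ _ (hc s _)]
    refine mul_ne_zero (hinv _) ?_
    rw [← hcomp]
    exact hL s (Finset.mem_univ s)
  have hrel' : ∀ s, ∑ l ∈ Finset.range (d s + 1), aeval z' (c s l) * z s ^ l = 0 := by
    intro s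
    have h1 := hPz _ (hrel s)
    rw [map_sum] at h1
    have h2 : ∑ l ∈ Finset.range (d s + 1), aeval z' (c s l) * z s ^ l =
        ((Z j0)⁻¹) ^ D s * ∑ l ∈ Finset.range (d s + 1), aeval z (aeval φ (c s l) * X s ^ l) := by
      rw [Finset.mul_sum]
      refine Finset.sum_congr rfl fun l _ => ?_
      rw [hform _ _ (hc s l), map_mul, map_pow, aeval_X, hcomp]
      ring
    rw [h2, h1, mul_zero]
  obtain ⟨hdeg, hconst⟩ := hDC3 k K htr σ n D d c z z' hd hc ⟨j0, hone⟩ hL' hrel'
  have hnc' : ∃ j, z' j ∉ Set.range (algebraMap k K) := by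
    by_contra hcon
    push Not at hcon
    obtain ⟨j, hj⟩ := hnc
    exact hj (hconst hcon j)
  -- orders
  have hfv : ∀ i, fv (a i) z' = ((Z j0)⁻¹) ^ e * aeval z (aeval φ (frm (a i))) := by
    intro i
    rw [fv_eq, hform _ _ (frm_homog (a i)), hcomp]
  have hAi : ∀ i, aeval z (aeval φ (frm (a i))) ≠ 0 := fun i => hA i (Finset.mem_univ i)
  have hpole : ∀ v, v ∉ S → (poleOrder v z' : ℤ) = v.ord (Z j0) := by
    intro v hv
    have hz0 : ∀ s, 0 ≤ v.ord (z s) := hreg v hv
    have hZr : ∀ j, ge v 0 (Z j) := fun j => by rw [hZ]; exact reg_aeval v z hz0 (φ j)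
    have hord0 : 0 ≤ v.ord (Z j0) := (hZr j0).resolve_left hZ0'
    -- upper bound
    have hle : ∀ j, -(v.ord (z' j)) ≤ v.ord (Z j0) := by
      intro j
      rcases hZr j with h0 | h0
      · have h1 : z' j = 0 := by rw [hz']; simp [h0]
        rw [h1, v.ord_zero]
        omega
      · by_cases hz : Z j = 0
        · have h1 : z' j = 0 := by rw [hz']; simp [hz]
          rw [h1, v.ord_zero]
          omega
        · have h1 : v.ord (z' j) = -(v.ord (Z j0)) + v.ord (Z j) := by
            rw [hz']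
            change v.ord ((Z j0)⁻¹ * Z j) = _
            rw [v.ord_mul' (inv_ne_zero hZ0') hz, v.ord_inv]
          omega
    have hub : (poleOrder v z' : ℤ) ≤ v.ord (Z j0) := by
      have h1 : poleOrder v z' ≤ (v.ord (Z j0)).toNat := by
        unfold poleOrder
        refine Finset.sup_le fun j _ => ?_
        have := hle j
        omega
      omega
    -- lower bound: some `Z j` is a unit
    obtain ⟨j1, hj1, hj1'⟩ : ∃ j1, Z j1 ≠ 0 ∧ v.ord (Z j1) ≤ 0 := by
      by_contra hcon
      push Not at hcon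
      have hge1 : ∀ j, ge v 1 (Z j) := by
        intro j
        by_cases h0 : Z j = 0
        · exact Or.inl h0
        · exact Or.inr (hcon j h0)
      have hall : ∀ f ∈ Ideal.span (Set.range φ), ge v 1 (aeval z f) := by
        intro f hf
        induction hf using Submodule.span_induction with
        | mem x hx =>
          obtain ⟨j, rfl⟩ := hx
          have := hge1 j
          rw [hZ] at this
          exact this
        | zero => left; simp
        | add x y _ _ hx hy => rw [map_add]; exact hx.add hy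
        | smul b x _ hx =>
          rw [smul_eq_mul, map_mul]
          exact ((reg_aeval v z hz0 b).mul hx).mono (by simp)
      have h1 : (1 : MvPolynomial σ k) ∈ Ideal.span (Set.range φ) ⊔ P := by
        rw [hunit]
        exact Submodule.mem_top
      obtain ⟨f, hf, p, hp, hfp⟩ := Submodule.mem_sup.1 h1
      have h2 := hall f hf
      have h3 : aeval z f = 1 := by
        have h4 := congrArg (aeval z) hfp
        rw [map_add, hPz p hp, add_zero, map_one] at h4
        exact h4
      rw [h3] at h2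
      have h5 := h2.resolve_left one_ne_zero
      rw [v.ord_one] at h5
      omega
    have hlb : v.ord (Z j0) ≤ poleOrder v z' := by
      have h1 : v.ord (z' j1) = -(v.ord (Z j0)) + v.ord (Z j1) := by
        rw [hz']
        change v.ord ((Z j0)⁻¹ * Z j1) = _
        rw [v.ord_mul' (inv_ne_zero hZ0') hj1, v.ord_inv]
      have h2 : (-(v.ord (z' j1))).toNat ≤ poleOrder v z' :=
        Finset.le_sup (f := fun i => (-(v.ord (z' i))).toNat) (Finset.mem_univ j1)
      omega
    omega
  have hmain := hB a ha K htr S z' D0 hD0 ⟨j0, hone⟩ (fun g hg => by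
      obtain ⟨N, hN⟩ := hQ g hg
      rw [hform g N hN, ← hcomp, hPz _ (hQφ g hg), mul_zero]) hnc'
    (fun i => by rw [hfv i]; exact mul_ne_zero (hinv _) (hAi i))
    (fun v hv i => by
      have h1 : v.ord (fv (a i) z') + e * poleOrder v z' =
          v.ord (aeval z (aeval φ (frm (a i)))) := by
        rw [hfv i, v.ord_mul' (hinv _) (hAi i), v.ord_pow, v.ord_inv, hpole v hv]
        ring
      rw [h1]
      exact hRP3 k K v σ m P _ z (hdiv i).2 (hreg v hv) (fun p hp => hPz p hp) (hAi i))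
  have h1 : (deg k z : ℤ) ≤ ((∑ s, D s : ℕ) : ℤ) * deg k z' := by exact_mod_cast hdeg
  push_cast at h1 ⊢
  calc (deg k z : ℤ) ≤ (∑ s, (D s : ℤ)) * deg k z' := h1
    _ ≤ (∑ s, (D s : ℤ)) * (B * (canDeg D0 + S.card)) :=
        mul_le_mul_of_nonneg_left hmain (Finset.sum_nonneg fun _ _ => by positivity)
    _ = _ := by ring

end Pool.Agent.H30.AX
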