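import Pool.Agent.H30.AX.Targets

/-!
# MP_70ba79_ag: the final form of the theorem of the board `aw_modules`

`X` is an affine variety (coordinates `σ`, prime ideal `P`), `φ : X → ℙ^n` a morphism given by
polynomials, generically finite, with values in the projective variety `Y` (equations `Q`), and
the pullback of every `a_i` is divisible by `m`.
-/

set_option autoImplicit false

namespace Pool.Agent.H30.AX

open MvPolynomial SC Pool.Agent.H27.LV Pool.Agent.H30.AV Pool.Agent.H30.AW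

/-- The coordinates of the affine variety with the ideal `P` are algebraic over the field generated
by the quotients of the `φ_j`: `∑ c_l (φ) x_s ^ l = 0` with forms `c_l` of one degree `D`, the
leading coefficient is not `0`. So the map `φ` to projective space is generically finite. -/
def GenFinite {k σ : Type} [Field k] {n : ℕ} (P : Ideal (MvPolynomial σ k))
    (φ : Fin (n + 1) → MvPolynomial σ k) : Prop :=
  ∀ s : σ, ∃ (D d : ℕ) (c : ℕ → MvPolynomial (Fin (n + 1)) k), 1 ≤ d ∧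
    (∀ l, (c l).IsHomogeneous D) ∧ aeval φ (c d) ∉ P ∧
    ∑ l ∈ Finset.range (d + 1), aeval φ (c l) * X s ^ l ∈ P

/-- The function `A` on the affine variety with the ideal `P` is in the `m`-th power of the ideal
of the functions which vanish where it vanishes. -/
def MulDiv {k σ : Type} [Field k] (m : ℕ) (P : Ideal (MvPolynomial σ k))
    (A : MvPolynomial σ k) : Prop := A ∈ (Ideal.span {A} ⊔ P).radical ^ m ⊔ P

/-- RP3: multiplicities of zeros -/
def T_RP3 : Prop := ∀ (k K : Type) [Field k] [Field K] [Algebra k K] (v : DV k K) (σ : Type)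
  (m : ℕ) (P : Ideal (MvPolynomial σ k)) (A : MvPolynomial σ k) (z : σ → K), MulDiv m P A →
  (∀ s, 0 ≤ v.ord (z s)) → (∀ p ∈ P, aeval z p = 0) → aeval z A ≠ 0 →
  v.ord (aeval z A) = 0 ∨ (m : ℤ) ≤ v.ord (aeval z A)

/-- DC3: comparison of degrees, constant curves -/
def T_DC3 : Prop := ∀ (k K : Type) [Field k] [IsAlgClosed k] [CharZero k] [Field K] [Algebra k K]
  [Algebra.EssFiniteType k K], Algebra.trdeg k K = 1 → ∀ (σ : Type) [Fintype σ] (n : ℕ)
  (D d : σ → ℕ) (c : σ → ℕ → MvPolynomial (Fin (n + 1)) k) (z : σ → K) (z' : Fin (n + 1) → K),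
  (∀ s, 1 ≤ d s) → (∀ s l, (c s l).IsHomogeneous (D s)) → (∃ j, z' j = 1) →
  (∀ s, aeval z' (c s (d s)) ≠ 0) →
  (∀ s, ∑ l ∈ Finset.range (d s + 1), aeval z' (c s l) * z s ^ l = 0) →
  deg k z ≤ (∑ s, D s) * deg k z' ∧
  ((∀ j, z' j ∈ Set.range (algebraMap k K)) → ∀ s, z s ∈ Set.range (algebraMap k K))

/-- FI3: the final theorem -/
def T_FI3 : Prop := ∀ (k : Type) [Field k] [IsAlgClosed k] [CharZero k] (m n r e q : ℕ)
  (Q : Set (MvPolynomial (Fin (n + 1)) k)), 2 ≤ m → 1 ≤ r → 1 ≤ e →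
  (∀ g ∈ Q, ∃ d, g.IsHomogeneous d) → DimLE Q (r + 1) →
  2 * m ^ 2 * ((2 * r - 1) * (2 * r - 2) + 1) ≤ (m - 1) ^ 2 * (q - 2 * r) →
  ∃ Δ : MvPolynomial (Fin q × Mon (n + 1) e) k, Δ ≠ 0 ∧
    ∀ a : Fin q → Mon (n + 1) e → k, eval (fun p => a p.1 p.2) Δ ≠ 0 →
    ∀ (σ : Type) [Fintype σ] (P : Ideal (MvPolynomial σ k)) (φ : Fin (n + 1) → MvPolynomial σ k),
    P.IsPrime → Ideal.span (Set.range φ) ⊔ P = ⊤ → (∀ g ∈ Q, aeval φ g ∈ P) → GenFinite P φ →
    (∀ i, aeval φ (frm (a i)) ∉ P ∧ MulDiv m P (aeval φ (frm (a i)))) →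
    ∃ (h : MvPolynomial σ k) (B : ℕ), h ∉ P ∧ DegreeBound k (P : Set (MvPolynomial σ k)) h
      (fun χ => B * χ)

end Pool.Agent.H30.AX
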